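import Mathlib
import Pool.Agent.Q24.SL2

/-!
# Infinite profinite CA-groups which are not prosoluble

The groups are `SL₂(F[[t]])` for the finite fields `F` of characteristic two with more than two
elements.
-/

set_option autoImplicit false

namespace Pool.Agent.Results.MP_d2e4ca_al.PowerSeriesExample

open Q24.SL2 Topology
open scoped PowerSeries.WithPiTopology

universe u

/-- `G` is a CA-group: the centralizer of every nontrivial element is abelian. -/
def IsCA (G : Type u) [Group G] : Prop :=
  ∀ x : G, x ≠ 1 → ∀ y z : G, x * y = y * x → x * z = z * x → y * z = z * y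

/-- The profinite group `G` is prosoluble: all its quotients by open normal subgroups are soluble. -/
def IsProsoluble (G : Type u) [Group G] [TopologicalSpace G] : Prop :=
  ∀ U : Subgroup G, [U.Normal] → IsOpen (U : Set G) → Group.IsSolvable (G ⧸ U)

section CA

variable {R : Type u} [CommRing R]

theorem comm_iff (x y : SL2 R) : x * y = y * x ↔ x 0 1 * y 1 0 = y 0 1 * x 1 0 ∧
    y 0 1 * (x 0 0 - x 1 1) = x 0 1 * (y 0 0 - y 1 1) ∧
    x 1 0 * (y 0 0 - y 1 1) = y 1 0 * (x 0 0 - x 1 1) := by
  constructor
  · intro h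
    have h00 := congrArg (fun g : SL2 R => g 0 0) h
    have h01 := congrArg (fun g : SL2 R => g 0 1) h
    have h10 := congrArg (fun g : SL2 R => g 1 0) h
    simp only [mul_00, mul_01, mul_10] at h00 h01 h10
    exact ⟨by linear_combination h00, by linear_combination h01, by linear_combination h10⟩
  · rintro ⟨h1, h2, h3⟩
    apply ext2
    · simp only [mul_00]; linear_combination h1
    · simp only [mul_01]; linear_combination h2
    · simp only [mul_10]; linear_combination h3
    · simp only [mul_11]; linear_combination -h1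

theorem cross {R : Type u} [CommRing R] [IsDomain R] {b c d f g e f' g' e' : R}
    (hv : b ≠ 0 ∨ c ≠ 0 ∨ d ≠ 0)
    (h1 : b * g = f * c) (h2 : f * d = b * e) (h3 : c * e = g * d)
    (h1' : b * g' = f' * c) (h2' : f' * d = b * e') (h3' : c * e' = g' * d) :
    f * g' = f' * g ∧ f' * e = f * e' ∧ g * e' = g' * e := by
  rcases hv with hb | hc | hd
  · have k1 : f * g' = f' * g := by
      apply mul_left_cancel₀ hb
      linear_combination f * h1' - f' * h1
    have k2 : f' * e = f * e' := by
      apply mul_left_cancel₀ hb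
      linear_combination f * h2' - f' * h2
    refine ⟨k1, k2, ?_⟩
    apply mul_left_cancel₀ hb
    linear_combination e' * h1 - e * h1' - c * k2
  · have k1 : f * g' = f' * g := by
      apply mul_left_cancel₀ hc
      linear_combination g * h1' - g' * h1
    have k3 : g * e' = g' * e := by
      apply mul_left_cancel₀ hc
      linear_combination g * h3' - g' * h3
    refine ⟨k1, ?_, k3⟩
    apply mul_left_cancel₀ hc
    linear_combination e' * h1 - e * h1' - b * k3
  · have k2 : f' * e = f * e' := by
      apply mul_left_cancel₀ hd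
      linear_combination e * h2' - e' * h2
    have k3 : g * e' = g' * e := by
      apply mul_left_cancel₀ hd
      linear_combination e * h3' - e' * h3
    refine ⟨?_, k2, k3⟩
    apply mul_left_cancel₀ hd
    linear_combination g' * h2 - g * h2' - b * k3

theorem isCA_SL2 [IsDomain R] (h2 : (2 : R) = 0) : IsCA (SL2 R) := by
  intro x hx y z hxy hxz
  rw [comm_iff] at hxy hxz ⊢
  have hv : x 0 1 ≠ 0 ∨ x 1 0 ≠ 0 ∨ x 0 0 - x 1 1 ≠ 0 := by
    by_contra hc
    push Not at hc
    obtain ⟨h01, h10, h00⟩ := hc
    apply hx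
    have hdet := det2 x
    rw [h01, h10] at hdet
    have h11 : x 1 1 = x 0 0 := by linear_combination -h00
    have h3 : (x 0 0 - 1) * (x 0 0 - 1) = 0 := by
      rw [h11] at hdet
      linear_combination hdet + (1 - x 0 0) * h2
    have h4 : x 0 0 = 1 := by
      have := mul_self_eq_zero.1 h3
      linear_combination this
    exact ext2 (by rw [h4, one_00]) (by rw [h01, one_01]) (by rw [h10, one_10])
      (by rw [h11, h4, one_11])
  obtain ⟨k1, k2, k3⟩ := cross hv hxy.1 hxy.2.1 hxy.2.2 hxz.1 hxz.2.1 hxz.2.2
  exact ⟨k1, k2, k3⟩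

end CA

section Simple

variable {F : Type u} [Field F]

theorem eq_top_of {N : Subgroup (SL2 F)} [N.Normal] (h : ∀ z : F, up z ∈ N) : N = ⊤ := by
  have h1 : ∀ M : SL2 F, M 0 0 ≠ 0 → M ∈ N := by
    intro M hM
    refine mem_of_cong (t := 1) (fun z => by rw [one_mul]; exact h z) M
      (mul_inv_cancel₀ hM) (α := M 0 0 - 1) (by ring) (β := M 0 1) (by ring) (γ := M 1 0) (by ring)
  rw [eq_top_iff]
  intro M _
  by_cases hM : M 0 0 = 0
  · have h2 : up 1 * M ∈ N := by
      apply h1
      simp only [mul_00, up, mk2_00, mk2_01, hM]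
      intro hc
      have hdet := det2 M
      have hc' : M 1 0 = 0 := by linear_combination hc
      rw [hM, hc'] at hdet
      exact zero_ne_one (by linear_combination hdet)
    have h3 := N.mul_mem (N.inv_mem (h 1)) h2
    rwa [inv_mul_cancel_left] at h3
  · exact h1 M hM

/-- `SL₂(F)` is simple for a field `F` of characteristic two with more than two elements. -/
theorem simple_SL2 (h2 : (2 : F) = 0) {w : F} (hw0 : w ≠ 0) (hw1 : w ≠ 1) :
    IsSimpleGroup (SL2 F) := by
  refine { exists_pair_ne := ⟨up 1, 1, ?_⟩, eq_bot_or_eq_top_of_normal := ?_ }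
  · rw [← up_zero]
    exact fun h => one_ne_zero (up_injective h)
  · intro N hN
    by_cases hb : N = ⊥
    · exact Or.inl hb
    right
    obtain ⟨⟨g, hg⟩, hg1'⟩ := Subgroup.ne_bot_iff_exists_ne_one.1 hb
    have hg1 : g ≠ 1 := fun h => hg1' (Subtype.ext h)
    have hns : g 1 0 ≠ 0 ∨ g 0 1 ≠ 0 ∨ g 0 0 ≠ g 1 1 := by
      by_contra hc
      push Not at hc
      obtain ⟨h10, h01, h00⟩ := hc
      apply hg1
      have hdet := det2 g
      rw [h01, h10, ← h00] at hdet
      have h3 : (g 0 0 - 1) * (g 0 0 - 1) = 0 := by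
        linear_combination hdet + (1 - g 0 0) * h2
      have h4 : g 0 0 = 1 := by
        have := mul_self_eq_zero.1 h3
        linear_combination this
      exact ext2 (by rw [h4, one_00]) (by rw [h01, one_01]) (by rw [h10, one_10])
        (by rw [← h00, h4, one_11])
    obtain ⟨g, hg, hc⟩ := exists_conj hg hns
    have hw4 : w ^ 4 - 1 ≠ 0 := by
      have : w ^ 4 - 1 = (w - 1) ^ 4 := by
        linear_combination (2 * w ^ 3 - 3 * w ^ 2 + 2 * w - 1) * h2
      rw [this]
      exact pow_ne_zero _ (sub_ne_zero.2 hw1)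
    apply eq_top_of
    intro z
    have h3 := up_mem_of (x := (w ^ 2 - 1) * g 1 1 / g 1 0) hg (mul_inv_cancel₀ hw0)
      (div_mul_cancel₀ _ hc) ((w ^ 4 - 1)⁻¹ * z)
    rwa [mul_inv_cancel_left₀ hw4] at h3

theorem not_solvable_SL2 [IsSimpleGroup (SL2 F)] : ¬ Group.IsSolvable (SL2 F) := by
  rw [← IsSimpleGroup.comm_iff_isSolvable]
  intro hc
  have h1 := (comm_iff (up (1 : F)) (lo 1)).1 (hc _ _)
  have h2 : (1 : F) * 1 = 0 * 0 := h1.1
  exact one_ne_zero (by linear_combination h2)

end Simple

section Top

variable (F : Type) [Field F] [Finite F] [TopologicalSpace F] [DiscreteTopology F]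

instance : CompactSpace (PowerSeries F) :=
  inferInstanceAs (CompactSpace ((Unit →₀ ℕ) → F))

instance : TotallyDisconnectedSpace (PowerSeries F) :=
  inferInstanceAs (TotallyDisconnectedSpace ((Unit →₀ ℕ) → F))

instance : CompactSpace (Matrix (Fin 2) (Fin 2) (PowerSeries F)) :=
  inferInstanceAs (CompactSpace (Fin 2 → Fin 2 → PowerSeries F))

instance : TotallyDisconnectedSpace (Matrix (Fin 2) (Fin 2) (PowerSeries F)) :=
  inferInstanceAs (TotallyDisconnectedSpace (Fin 2 → Fin 2 → PowerSeries F))

theorem emb : IsClosedEmbedding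
    ((↑) : SL2 (PowerSeries F) → Matrix (Fin 2) (Fin 2) (PowerSeries F)) :=
  Matrix.SpecialLinearGroup.isClosedEmbedding_val

instance : CompactSpace (SL2 (PowerSeries F)) := (emb F).compactSpace

instance : T2Space (SL2 (PowerSeries F)) := (emb F).isEmbedding.t2Space

instance : TotallyDisconnectedSpace (SL2 (PowerSeries F)) :=
  ⟨(emb F).isEmbedding.isTotallyDisconnected (isTotallyDisconnected_of_totallyDisconnectedSpace _)⟩

omit [Finite F] [TopologicalSpace F] [DiscreteTopology F] in
theorem infinite : Infinite (SL2 (PowerSeries F)) := by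
  refine Infinite.of_injective (fun n : ℕ => up ((PowerSeries.X : PowerSeries F) ^ n)) ?_
  intro a b h
  have h1 := congrArg PowerSeries.order (up_injective h)
  rw [PowerSeries.order_X_pow, PowerSeries.order_X_pow] at h1
  exact_mod_cast h1

end Top

/-- For every `m ≥ 2` there is an infinite profinite CA-group `G` with an open normal subgroup `N`
such that `G ⧸ N` is isomorphic to the simple group `SL₂(2^m) = PSL₂(2^m)`; in particular `G` is
not prosoluble. -/
theorem result : ∀ m : ℕ, 2 ≤ m →
    IsSimpleGroup (Matrix.SpecialLinearGroup (Fin 2) (GaloisField 2 m)) ∧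
    ∃ (G : Type) (_ : Group G) (_ : TopologicalSpace G), IsTopologicalGroup G ∧ CompactSpace G ∧
      T2Space G ∧ TotallyDisconnectedSpace G ∧ Infinite G ∧ IsCA G ∧ ¬ IsProsoluble G ∧
      ∃ N : Subgroup G, ∃ _ : N.Normal, IsOpen (N : Set G) ∧
        Nonempty (G ⧸ N ≃* Matrix.SpecialLinearGroup (Fin 2) (GaloisField 2 m)) := by
  intro m hm
  have hp2 : Fact (Nat.Prime 2) := ⟨Nat.prime_two⟩
  let F := GaloisField 2 m
  have hfin : Finite F := inferInstance
  have h20 : (2 : F) = 0 := by
    have := CharP.cast_eq_zero F 2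
    exact_mod_cast this
  obtain ⟨w, hw0, hw1⟩ : ∃ w : F, w ≠ 0 ∧ w ≠ 1 := by
    by_contra hc
    push Not at hc
    have hcard : Nat.card F = 2 ^ m := GaloisField.card 2 m (by omega)
    have hsub : (Set.univ : Set F) ⊆ {0, 1} := by
      intro x _
      by_cases hx : x = 0
      · exact Or.inl hx
      · exact Or.inr (hc x hx)
    have h1 : Nat.card F ≤ 2 := by
      rw [← Set.ncard_univ]
      refine (Set.ncard_le_ncard hsub (Set.toFinite _)).trans ?_
      exact (Set.ncard_insert_le (0 : F) {1}).trans (by rw [Set.ncard_singleton])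
    rw [hcard] at h1
    have h2 : 2 ^ 2 ≤ 2 ^ m := Nat.pow_le_pow_right (by norm_num) hm
    omega
  have hsimple : IsSimpleGroup (SL2 F) := simple_SL2 h20 hw0 hw1
  refine ⟨hsimple, ?_⟩
  let _ : TopologicalSpace F := ⊥
  have : DiscreteTopology F := ⟨rfl⟩
  have hR2 : (2 : PowerSeries F) = 0 := by
    have h1 : (2 : PowerSeries F) = PowerSeries.C (2 : F) := (map_ofNat _ 2).symm
    rw [h1, h20, map_zero]
  -- the reduction map
  let π : SL2 (PowerSeries F) →* SL2 F :=
    Matrix.SpecialLinearGroup.map (PowerSeries.constantCoeff (R := F))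
  have hπ : Continuous π :=
    Continuous.specialLinearGroup_map (PowerSeries.WithPiTopology.continuous_constantCoeff F)
  have hsurj : Function.Surjective π := by
    intro g
    refine ⟨Matrix.SpecialLinearGroup.map (PowerSeries.C (R := F)) g, ?_⟩
    apply ext2 <;> exact PowerSeries.constantCoeff_C _
  have hopen : IsOpen (π.ker : Set (SL2 (PowerSeries F))) :=
    (isOpen_discrete ({1} : Set (SL2 F))).preimage hπ
  let e : SL2 (PowerSeries F) ⧸ π.ker ≃* SL2 F :=
    QuotientGroup.quotientKerEquivOfSurjective π hsurj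
  refine ⟨SL2 (PowerSeries F), inferInstance, inferInstance, inferInstance, inferInstance,
    inferInstance, inferInstance, infinite F, isCA_SL2 hR2, ?_, π.ker, inferInstance, hopen, ⟨e⟩⟩
  intro hpro
  have h1 := hpro π.ker hopen
  exact not_solvable_SL2 (F := F) (Group.isSolvable_of_surjective (f := e.toMonoidHom) e.surjective)

end Pool.Agent.Results.MP_d2e4ca_al.PowerSeriesExample
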